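import Pool.Agent.W206.YP.Stm

/-!
# Growth exponents (`S_PG`)
-/

set_option autoImplicit false

namespace Pool.Agent.W398.YP.PG

open UpperHalfPlane H294ZP Pool.Agent.W206.CT Pool.Agent.W206.YP Filter

theorem ub (p : Polynomial ℂ) (N : ℕ) (hN : p.natDegree ≤ N) (r : ℝ) (hr : 1 ≤ r) (s : ℂ)
    (hs : ‖s‖ ≤ r) : ‖p.eval s‖ ≤ (∑ i ∈ Finset.range (N + 1), ‖p.coeff i‖) * r ^ N := by
  rw [Polynomial.eval_eq_sum_range' (Nat.lt_succ_of_le hN), Finset.sum_mul]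
  refine (norm_sum_le _ _).trans (Finset.sum_le_sum ?_)
  intro i hi
  rw [norm_mul, norm_pow]
  refine mul_le_mul_of_nonneg_left ?_ (norm_nonneg _)
  calc ‖s‖ ^ i ≤ r ^ i := pow_le_pow_left₀ (norm_nonneg _) hs i
    _ ≤ r ^ N := pow_le_pow_right₀ hr (Nat.lt_succ_iff.mp (Finset.mem_range.mp hi))

theorem bd (f : Polynomial ℂ) (hf : 0 < f.natDegree) : ∃ A R : ℝ, 0 < A ∧
    ∀ s : ℂ, R ≤ ‖f.eval s‖ → ‖s‖ ^ f.natDegree ≤ A * ‖f.eval s‖ ∧
      ‖f.eval s‖ ≤ A * ‖s‖ ^ f.natDegree := by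
  set m := f.natDegree with hm
  set S : ℝ := ∑ i ∈ Finset.range (m + 1), ‖f.coeff i‖ with hS
  set S' : ℝ := ∑ i ∈ Finset.range (m - 1 + 1), ‖f.eraseLead.coeff i‖ with hS'
  set c : ℝ := ‖f.leadingCoeff‖ with hc
  have hS0 : 0 ≤ S := Finset.sum_nonneg fun _ _ => norm_nonneg _
  have hS'0 : 0 ≤ S' := Finset.sum_nonneg fun _ _ => norm_nonneg _
  have hc0 : 0 < c := by
    rw [hc, norm_pos_iff, Polynomial.leadingCoeff_ne_zero]
    intro h0
    rw [hm, h0] at hf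
    simp at hf
  set r : ℝ := 1 + 2 * S' / c with hr
  have hr1 : 1 ≤ r := by
    have : 0 ≤ 2 * S' / c := by positivity
    linarith
  refine ⟨S + 1 + 2 / c, S * r ^ m + 1, by positivity, ?_⟩
  intro s hs
  have hrs : r ≤ ‖s‖ := by
    by_contra hlt
    rw [not_le] at hlt
    have := ub f m le_rfl r hr1 s hlt.le
    linarith
  have hs1 : 1 ≤ ‖s‖ := hr1.trans hrs
  have hup : ‖f.eval s‖ ≤ S * ‖s‖ ^ m := ub f m le_rfl ‖s‖ hs1 s le_rfl
  have her : ‖f.eraseLead.eval s‖ ≤ S' * ‖s‖ ^ (m - 1) :=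
    ub f.eraseLead (m - 1) (Polynomial.eraseLead_natDegree_le f) ‖s‖ hs1 s le_rfl
  have hev : f.eval s = f.eraseLead.eval s + f.leadingCoeff * s ^ m := by
    have h0 := congrArg (Polynomial.eval s) (Polynomial.eraseLead_add_C_mul_X_pow f)
    simp only [Polynomial.eval_add, Polynomial.eval_mul, Polynomial.eval_C, Polynomial.eval_pow,
      Polynomial.eval_X] at h0
    exact h0.symm
  have hlow : c * ‖s‖ ^ m - S' * ‖s‖ ^ (m - 1) ≤ ‖f.eval s‖ := by
    have h1 : f.leadingCoeff * s ^ m = f.eval s - f.eraseLead.eval s := by rw [hev]; ring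
    have h2 : c * ‖s‖ ^ m = ‖f.leadingCoeff * s ^ m‖ := by rw [norm_mul, norm_pow]
    have h3 : ‖f.leadingCoeff * s ^ m‖ ≤ ‖f.eval s‖ + ‖f.eraseLead.eval s‖ := by
      rw [h1]; exact norm_sub_le _ _
    linarith
  have hpow : ‖s‖ ^ m = ‖s‖ * ‖s‖ ^ (m - 1) := by
    conv_lhs => rw [show m = (m - 1) + 1 by omega, pow_succ]
    ring
  have hp0 : 0 ≤ ‖s‖ ^ (m - 1) := by positivity
  have h4 : 2 * S' ≤ c * ‖s‖ := by
    have h5 : 2 * S' / c ≤ ‖s‖ := by linarith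
    rw [div_le_iff₀ hc0] at h5
    linarith
  have h6 : 2 * S' * ‖s‖ ^ (m - 1) ≤ c * ‖s‖ ^ m := by
    rw [hpow]
    have := mul_le_mul_of_nonneg_right h4 hp0
    linarith
  have h7 : c * ‖s‖ ^ m ≤ 2 * ‖f.eval s‖ := by linarith
  have hn0 : 0 ≤ ‖f.eval s‖ := norm_nonneg _
  have hq0 : 0 ≤ ‖s‖ ^ m := by positivity
  have hic : 0 < 2 / c := by positivity
  constructor
  · have h8 : ‖s‖ ^ m ≤ 2 / c * ‖f.eval s‖ := by
      rw [div_mul_eq_mul_div, le_div_iff₀ hc0]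
      linarith
    nlinarith
  · nlinarith

theorem main : S_PG := by
  intro hG a b d f g ha hd hf hg h
  obtain ⟨Y, C, hC, hY⟩ := hG
  obtain ⟨A1, R1, hA1, hb1⟩ := bd f hf
  obtain ⟨A2, R2, hA2, hb2⟩ := bd g hg
  set m := f.natDegree with hm
  set n := g.natDegree with hn
  have haR : (0 : ℝ) < a := by exact_mod_cast ha
  have hdR : (0 : ℝ) < d := by exact_mod_cast hd
  set q : ℝ := (a : ℝ) / d with hq
  have hq0 : 0 < q := by positivity
  set K : ℝ := (C * A1) ^ n * (C * A2) ^ m with hK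
  have hK0 : 0 < K := by positivity
  by_contra hne
  set δ : ℝ := (n : ℝ) - m * q with hδ
  have hδ0 : δ ≠ 0 := by
    intro h0
    apply hne
    have h1 : (n : ℝ) = m * (a / d) := by rw [hδ] at h0; linarith
    have h2 : (n : ℝ) * d = a * m := by
      rw [h1]
      field_simp
    exact_mod_cast h2
  have e1 : ∀ᶠ y : ℝ in atTop, Y ≤ y := eventually_ge_atTop Y
  have e2 : ∀ᶠ y : ℝ in atTop, Y / q ≤ y := eventually_ge_atTop _
  have e0 : ∀ᶠ y : ℝ in atTop, 0 < y := eventually_gt_atTop 0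
  have e3 : ∀ᶠ y : ℝ in atTop, C * R1 / (2 * Real.pi) ≤ y := eventually_ge_atTop _
  have e4 : ∀ᶠ y : ℝ in atTop, C * R2 / (2 * Real.pi * q) ≤ y := eventually_ge_atTop _
  have e5 : ∀ᶠ y : ℝ in atTop, Real.log K / (2 * Real.pi * |δ|) < y := eventually_gt_atTop _
  obtain ⟨y, hy1, hy2, hy0, hy3, hy4, hy5⟩ := (e1.and (e2.and (e0.and (e3.and (e4.and e5))))).exists
  have hpi : 0 < Real.pi := Real.pi_pos
  have hδ1 : 0 < |δ| := abs_pos.mpr hδ0
  rw [div_le_iff₀ hq0] at hy2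
  rw [div_le_iff₀ (by positivity)] at hy3 hy4
  rw [div_lt_iff₀ (by positivity)] at hy5
  let τ : ℍ := ⟨Complex.I * (y : ℂ), by simpa using hy0⟩
  have hwim : 0 < (((a : ℂ) * (Complex.I * (y : ℂ)) + (b : ℂ)) / (d : ℂ)).im := by
    have : (((a : ℂ) * (Complex.I * (y : ℂ)) + (b : ℂ)) / (d : ℂ)) =
        (((b : ℝ) / d : ℝ) : ℂ) + ((q * y : ℝ) : ℂ) * Complex.I := by
      rw [hq]
      push_cast
      have : (d : ℂ) ≠ 0 := by exact_mod_cast hd.ne'
      field_simp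
      ring
    rw [this]
    simp
    positivity
  let w : ℍ := ⟨((a : ℂ) * (Complex.I * (y : ℂ)) + (b : ℂ)) / (d : ℂ), hwim⟩
  have hτim : τ.im = y := by
    show (Complex.I * (y : ℂ)).im = y
    simp
  have hwim2 : w.im = q * y := by
    show (((a : ℂ) * (Complex.I * (y : ℂ)) + (b : ℂ)) / (d : ℂ)).im = q * y
    have : (((a : ℂ) * (Complex.I * (y : ℂ)) + (b : ℂ)) / (d : ℂ)) =
        (((b : ℝ) / d : ℝ) : ℂ) + ((q * y : ℝ) : ℂ) * Complex.I := by
      rw [hq]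
      push_cast
      have : (d : ℂ) ≠ 0 := by exact_mod_cast hd.ne'
      field_simp
      ring
    rw [this]
    simp
  have hrel : (w : ℂ) * (d : ℂ) = (a : ℂ) * (τ : ℂ) + (b : ℂ) := by
    show (((a : ℂ) * (Complex.I * (y : ℂ)) + (b : ℂ)) / (d : ℂ)) * (d : ℂ) =
      (a : ℂ) * (Complex.I * (y : ℂ)) + (b : ℂ)
    have : (d : ℂ) ≠ 0 := by exact_mod_cast hd.ne'
    field_simp
  obtain ⟨s, hs1, hs2⟩ := h τ w hrel
  obtain ⟨g1, g2⟩ := hY τ (by rw [hτim]; exact hy1)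
  obtain ⟨g3, g4⟩ := hY w (by rw [hwim2]; linarith)
  rw [hτim] at g1 g2
  rw [hwim2] at g3 g4
  rw [← hs1] at g1 g2
  rw [← hs2] at g3 g4
  set E1 := Real.exp (2 * Real.pi * y) with hE1
  set E2 := Real.exp (2 * Real.pi * (q * y)) with hE2
  have hE1' : 2 * Real.pi * y ≤ E1 := by
    have := Real.add_one_le_exp (2 * Real.pi * y)
    linarith
  have hE2' : 2 * Real.pi * (q * y) ≤ E2 := by
    have := Real.add_one_le_exp (2 * Real.pi * (q * y))
    linarith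
  have hE10 : 0 < E1 := Real.exp_pos _
  have hE20 : 0 < E2 := Real.exp_pos _
  have k1 : R1 ≤ ‖f.eval s‖ := by
    have h1 : C * R1 ≤ C * ‖f.eval s‖ := by nlinarith
    exact le_of_mul_le_mul_left h1 hC
  have k2 : R2 ≤ ‖g.eval s‖ := by
    have h1 : C * R2 ≤ C * ‖g.eval s‖ := by nlinarith
    exact le_of_mul_le_mul_left h1 hC
  obtain ⟨p1, p2⟩ := hb1 s k1
  obtain ⟨p3, p4⟩ := hb2 s k2
  set P := ‖s‖ ^ m with hP
  set Q := ‖s‖ ^ n with hQ
  have hP0 : 0 ≤ P := by positivity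
  have hQ0 : 0 ≤ Q := by positivity
  have hPQ : P ^ n = Q ^ m := by rw [hP, hQ, ← pow_mul, ← pow_mul, mul_comm]
  have r1 : P ≤ C * A1 * E1 := by
    calc P ≤ A1 * ‖f.eval s‖ := p1
      _ ≤ A1 * (C * E1) := by gcongr
      _ = _ := by ring
  have r2 : E1 ≤ C * A1 * P := by
    calc E1 ≤ C * ‖f.eval s‖ := g1
      _ ≤ C * (A1 * P) := by gcongr
      _ = _ := by ring
  have r3 : Q ≤ C * A2 * E2 := by
    calc Q ≤ A2 * ‖g.eval s‖ := p3
      _ ≤ A2 * (C * E2) := by gcongr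
      _ = _ := by ring
  have r4 : E2 ≤ C * A2 * Q := by
    calc E2 ≤ C * ‖g.eval s‖ := g3
      _ ≤ C * (A2 * Q) := by gcongr
      _ = _ := by ring
  have t1 : E1 ^ n ≤ K * E2 ^ m := by
    calc E1 ^ n ≤ (C * A1 * P) ^ n := pow_le_pow_left₀ hE10.le r2 n
      _ = (C * A1) ^ n * Q ^ m := by rw [mul_pow, hPQ]
      _ ≤ (C * A1) ^ n * (C * A2 * E2) ^ m := by gcongr
      _ = K * E2 ^ m := by rw [hK, mul_pow (C * A2) E2]; ring
  have t2 : E2 ^ m ≤ K * E1 ^ n := by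
    calc E2 ^ m ≤ (C * A2 * Q) ^ m := pow_le_pow_left₀ hE20.le r4 m
      _ = (C * A2) ^ m * P ^ n := by rw [mul_pow, hPQ]
      _ ≤ (C * A2) ^ m * (C * A1 * E1) ^ n := by gcongr
      _ = K * E1 ^ n := by rw [hK, mul_pow (C * A1) E1]; ring
  have l1 : n * (2 * Real.pi * y) ≤ Real.log K + m * (2 * Real.pi * (q * y)) := by
    have := Real.log_le_log (by positivity) t1
    rwa [Real.log_mul hK0.ne' (by positivity), Real.log_pow, Real.log_pow, hE1, hE2, Real.log_exp,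
      Real.log_exp] at this
  have l2 : m * (2 * Real.pi * (q * y)) ≤ Real.log K + n * (2 * Real.pi * y) := by
    have := Real.log_le_log (by positivity) t2
    rwa [Real.log_mul hK0.ne' (by positivity), Real.log_pow, Real.log_pow, hE1, hE2, Real.log_exp,
      Real.log_exp] at this
  have l3 : y * (2 * Real.pi * |δ|) ≤ Real.log K := by
    have e6 : y * (2 * Real.pi * δ) =
        n * (2 * Real.pi * y) - m * (2 * Real.pi * (q * y)) := by rw [hδ]; ring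
    rcases abs_cases δ with ⟨h1, _⟩ | ⟨h1, _⟩
    · rw [h1]
      linarith
    · rw [h1, show y * (2 * Real.pi * -δ) = -(y * (2 * Real.pi * δ)) by ring]
      linarith
  linarith

end Pool.Agent.W398.YP.PG
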